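import Pool.Agent.W353.AT.Defs
import Pool.Agent.W353.TD.Defs

/-!
# Tensor products of transcendental parts of the cohomology of several varieties: definitions

`K` is a number field.  A part `T` is the complement of `V(-i/2)` in `H^i(X)`, for a smooth projective
variety `X` over `K` and a representation `V` of the absolute Galois group of `K` over `ℚ` with finite
image; for `V = A^m(X) ⊗ ℚ`, `i = 2m`, it is the transcendental part of `H^{2m}(X)`, and for `V = 0` it is
`H^i(X)`.  The objects of the theorem are the tensor products `T_1 ⊗ ⋯ ⊗ T_r ⊗ ψ` of parts and an Artin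
representation `ψ` of `K`; they are parts of the cohomology of products of varieties.
The definitions of the Frobenius eigenvalues, of `LFun` (the Euler product) and `size` are
in `Pool.Agent.W353.EF.Defs` and `Pool.Agent.W353.EH.Defs`, those of the Frobenius elements and of
Artin representations in `Pool.Agent.W353.AT.Defs`, `eigenvalues`, `IsPart` and `rank` in
`Pool.Agent.W353.TD.Defs`.
-/

set_option autoImplicit false

namespace Pool.Agent.R461.UT

open NumberField IsDedekindDomain Filter Topology Polynomial ComplexConjugate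
open Pool.Agent.W353.EF (IsFrobenius LFun)
open Pool.Agent.W353.EH (edgePoint size)
open Pool.Agent.W353.AT (IsFrobeniusElement IsArtin)
open Pool.Agent.W353.TD (eigenvalues IsPart)

/-- The complement `T` of `V(-i/2)` in the cohomology group `H^i(X)`, `0 ≤ i ≤ 2d`, of a projective
variety `X` of dimension `d` over `K`, given by a set of homogeneous polynomials in `l` variables;
`N` is the `i`-th Betti number, `ρ` a representation of the absolute Galois group on `V`. -/
structure Piece (K : Type) [Field K] where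
  l : ℕ
  X : Set (MvPolynomial (Fin l) (𝓞 K))
  d : ℕ
  i : ℕ
  N : ℕ
  le : i ≤ 2 * d
  V : Type
  [grp : AddCommGroup V]
  [mod : Module ℚ V]
  [fin : FiniteDimensional ℚ V]
  ρ : Representation ℚ Gal(AlgebraicClosure K/K) V

attribute [instance] Piece.grp Piece.mod Piece.fin

/-- The dimension `N - dim V` of `T`. -/
noncomputable def Piece.s {K : Type} [Field K] (T : Piece K) : ℕ := T.N - Module.finrank ℚ T.V

/-- The whole cohomology group `H^i(X)`. -/
noncomputable def Piece.full {K : Type} [Field K] (T : Piece K) : Piece K where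
  l := T.l
  X := T.X
  d := T.d
  i := T.i
  N := T.N
  le := T.le
  V := PUnit
  ρ := 1

/-- `β_1, …, β_s` are the eigenvalues of the geometric Frobenius at `v` on `T`: together with the
eigenvalues on `V`, multiplied by `q_v^{i/2}`, they are the eigenvalues on `H^i(X)`. -/
def IsTrans {K : Type} [Field K] [NumberField K] (T : Piece K) (v : HeightOneSpectrum (𝓞 K))
    (β : Fin T.s → ℂ) : Prop :=
  ∃ α : Fin T.N → ℂ, IsFrobenius T.X T.d T.i v α ∧ ∀ σ, IsFrobeniusElement v σ →
    Finset.univ.val.map α = Finset.univ.val.map β + (eigenvalues (T.ρ σ⁻¹)).map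
      (fun z => (((Ideal.absNorm v.asIdeal : ℝ) ^ ((T.i : ℝ) / 2) : ℝ) : ℂ) * z)

/-- The tensor product `P = T_1 ⊗ ⋯ ⊗ T_m ⊗ ψ` of parts, with an Artin representation `ψ` of `K` of
dimension `n`; for `m = 0` it is `ψ`. -/
structure Mot (K : Type) [Field K] where
  m : ℕ
  H : Fin m → Piece K
  n : ℕ
  ψ : Representation ℂ Gal(AlgebraicClosure K/K) (Fin n → ℂ)
  artin : IsArtin ψ

/-- The dimension of `P`. -/
noncomputable def Mot.dim {K : Type} [Field K] (P : Mot K) : ℕ := (∏ t, (P.H t).s) * P.n

/-- The weight `i_1 + ⋯ + i_m` of `T_1 ⊗ ⋯ ⊗ T_m`. -/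
def weight {K : Type} [Field K] {m : ℕ} (H : Fin m → Piece K) : ℕ := ∑ t, (H t).i

/-- The polynomials `B v` are the Euler factors of `L(T_1 ⊗ ⋯ ⊗ T_m ⊗ θ, s)`: for almost all primes `v`
of `K`, `B_v(z) = ∏ det(1 - β_{1,f(1)} ⋯ β_{m,f(m)} z θ(σ⁻¹))`, the product over all `f` with
`1 ≤ f(t) ≤ s_t`, for the eigenvalues `β_{t,j}` of the geometric Frobenius `σ⁻¹` on `T_t`; at the other
primes `B v` is an arbitrary polynomial, and no factor `1 / B_v(q_v^{-s})` has a pole at the point
`s = w/2 + 1 + iτ` of the edge line, `w` the weight. -/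
def IsSystem {K : Type} [Field K] [NumberField K] {m : ℕ} (H : Fin m → Piece K) {n : ℕ}
    (θ : Representation ℂ Gal(AlgebraicClosure K/K) (Fin n → ℂ)) (τ : ℝ)
    (B : HeightOneSpectrum (𝓞 K) → ℂ[X]) : Prop :=
  (∀ᶠ v in cofinite, ∃ β : ∀ t, Fin (H t).s → ℂ, (∀ t, IsTrans (H t) v (β t)) ∧
    ∀ σ, IsFrobeniusElement v σ → ∀ z : ℂ, (B v).eval z =
      ∏ f : (∀ t, Fin (H t).s), LinearMap.det (1 - ((∏ t, β t (f t)) * z) • θ σ⁻¹)) ∧
  ∀ v, (B v).eval ((Ideal.absNorm v.asIdeal : ℂ) ^ (-edgePoint (weight H) τ)) ≠ 0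

section
variable {K : Type} [Field K]

/-- The parts in `P` followed by those in `Q`. -/
def Mot.cat (P Q : Mot K) : Fin (P.m + Q.m) → Piece K := Fin.append P.H Q.H

variable [NumberField K]

/-- The polynomials `B v` are the Euler factors of `L(P, s)` at the point `w/2 + 1 + iτ`. -/
def IsL (P : Mot K) (τ : ℝ) (B : HeightOneSpectrum (𝓞 K) → ℂ[X]) : Prop :=
  IsSystem P.H P.ψ τ B

/-- The polynomials `B v` are the Euler factors of `L(P ⊗ Q, s)`; `θ` is the tensor product of the
Artin representations, given by its character. -/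
def IsTensor (P Q : Mot K) (τ : ℝ) (B : HeightOneSpectrum (𝓞 K) → ℂ[X]) : Prop :=
  ∃ (n : ℕ) (θ : Representation ℂ Gal(AlgebraicClosure K/K) (Fin n → ℂ)), IsArtin θ ∧
    (∀ g, θ.character g = P.ψ.character g * Q.ψ.character g) ∧ IsSystem (P.cat Q) θ τ B

/-- The polynomials `B v` are the Euler factors of `L(P ⊗ Q', s)` at the real point of the edge line,
where `Q'` is `Q` with the dual Artin representation; it is the dual of `Q` up to a Tate twist. -/
def IsPairing (P Q : Mot K) (B : HeightOneSpectrum (𝓞 K) → ℂ[X]) : Prop :=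
  ∃ (n : ℕ) (θ : Representation ℂ Gal(AlgebraicClosure K/K) (Fin n → ℂ)), IsArtin θ ∧
    (∀ g, θ.character g = P.ψ.character g * conj (Q.ψ.character g)) ∧
    IsSystem (P.cat Q) θ 0 B

/-- `log |L(s_τ + ε)| / log(1/ε)` for the Euler product with the factors `B v` belonging to `P ⊗ Q`,
`s_τ = w/2 + 1 + iτ`, `w` the weight of `P ⊗ Q`.  If there is a pole of order `r` at `s_τ`, then it tends
to `r` as `ε → 0+`. -/
noncomputable def sizeT (P Q : Mot K) (τ : ℝ) (B : HeightOneSpectrum (𝓞 K) → ℂ[X]) (ε : ℝ) : ℝ :=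
  size (weight (P.cat Q)) τ B ε

/-- The Euler product with the factors `B v` has a pole of order `r` at the point `s_τ = j/2 + 1 + iτ`, in
the sense of the problem: `ε^r L(s_τ + ε)` has a finite limit different from `0` as `ε → 0+`.  This is
the case if there is a meromorphic continuation to a neighbourhood of `s_τ`, with a pole of order `r`
there (`r < 0` means a zero). -/
def PoleOrder (j : ℕ) (τ : ℝ) (B : HeightOneSpectrum (𝓞 K) → ℂ[X]) (r : ℤ) : Prop :=
  ∃ c : ℂ, c ≠ 0 ∧ Tendsto (fun ε : ℝ => (ε : ℂ) ^ r * LFun B (edgePoint j τ + ε)) (𝓝[>] 0) (𝓝 c)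

/-- The Euler product with the factors `B v` belonging to `P ⊗ Q` has a pole of order `r` at the point
`w/2 + 1 + iτ`, `w` the weight of `P ⊗ Q`. -/
def PoleT (P Q : Mot K) (τ : ℝ) (B : HeightOneSpectrum (𝓞 K) → ℂ[X]) (r : ℤ) : Prop :=
  PoleOrder (weight (P.cat Q)) τ B r

end

/-- The part `T` itself, with the trivial Artin representation. -/
noncomputable def Piece.mot {K : Type} [Field K] (T : Piece K) : Mot K where
  m := 1
  H := fun _ => T
  n := 1
  ψ := 1
  artin := ⟨⊤, isOpen_univ, fun _ _ => rfl⟩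

/-- The Artin representation `ψ`. -/
noncomputable def artinMot {K : Type} [Field K] {n : ℕ}
    (ψ : Representation ℂ Gal(AlgebraicClosure K/K) (Fin n → ℂ)) (hψ : IsArtin ψ) : Mot K where
  m := 0
  H := fun t => t.elim0
  n := n
  ψ := ψ
  artin := hψ

/-- `T` is the transcendental part of `H^{2m}(X)`: `V` is a part of `H^{2m}(X)(m)` with finite Galois
image, for example `A^m(X) ⊗ ℚ`.  `L(H^{2m}(X), s)` has a pole of order `r` at `m + 1`, in the sense of the
problem, and `L(T ⊗ T, s)` has at most a simple pole at `2m + 1`, in the sense that the upper limit of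
`log |L(T ⊗ T, 2m + 1 + ε)| / log(1/ε)` is at most `1`. -/
def Tame {K : Type} [Field K] [NumberField K] (T : Piece K) (m : ℕ) (r : ℤ) : Prop :=
  T.i = 2 * m ∧ IsPart T.X T.d m T.N T.ρ ∧
    ∃ B₁ B₂ : HeightOneSpectrum (𝓞 K) → ℂ[X], IsL T.full.mot 0 B₁ ∧
      PoleOrder (weight T.full.mot.H) 0 B₁ r ∧ IsPairing T.mot T.mot B₂ ∧
      ∀ η : ℝ, 0 < η → ∀ᶠ ε : ℝ in 𝓝[>] 0, sizeT T.mot T.mot 0 B₂ ε ≤ 1 + η

/-- The rank `dim V^G` of the space of the elements of `V` fixed by the absolute Galois group of `K`; it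
is the rank of `A^m(X)` for `V = A^m(X) ⊗ ℚ`. -/
noncomputable def Piece.rk {K : Type} [Field K] (T : Piece K) : ℕ :=
  Module.finrank ℚ (Representation.invariants T.ρ)

end Pool.Agent.R461.UT
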