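import Pool.Agent.R461.UT.Size
import Pool.Agent.R461.UR.Core
import Pool.Agent.R461.UR.Main

/-! The null combinations of the quadratic form of the sizes form an ideal. -/

set_option autoImplicit false

namespace Pool.Agent.R461.UT

open Complex Filter Topology ComplexConjugate NumberField IsDedekindDomain Asymptotics
  Pool.Agent.W401.Cheb Pool.Agent.W540.BE Pool.Agent.W353.L1 Polynomial
open Pool.Agent.H341R2 (lam lam_tendsto)
open Pool.Agent.W353.PV (tF)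
open Pool.Agent.W353.EF (LFun)
open Pool.Agent.W353.EH (edgePoint size)
open Pool.Agent.W353.AT (IsArtin exists_common)
open Pool.Agent.W353.TD (ch IsPart)
open Pool.Agent.R461.UR (core zz_zero char_bound size_of_order')

section
variable {K : Type} [Field K] [NumberField K]

/-- the local term of `P` -/
noncomputable def loc (P : Mot K) (σ : HeightOneSpectrum (𝓞 K) → GK K)
    (v : HeightOneSpectrum (𝓞 K)) : ℂ := (tT P.H σ v : ℂ) * P.ψ.character (σ v)⁻¹

theorem norm_loc (P : Mot K) (σ : HeightOneSpectrum (𝓞 K) → GK K)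
    (v : HeightOneSpectrum (𝓞 K)) : ‖loc P σ v‖ ≤ (P.dim : ℝ) := by
  unfold loc Mot.dim
  rw [norm_mul, Complex.norm_real, Real.norm_eq_abs, Nat.cast_mul]
  exact mul_le_mul (abs_tT _ _ _) (char_bound P.ψ P.artin _) (norm_nonneg _) (Nat.cast_nonneg _)

theorem tT_cat (P Q : Mot K) (σ : HeightOneSpectrum (𝓞 K) → GK K)
    (v : HeightOneSpectrum (𝓞 K)) : tT (P.cat Q) σ v = tT P.H σ v * tT Q.H σ v := by
  have h1 : ∀ C C' : Piece K, C = C' → tP C σ v = tP C' σ v := by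
    rintro C _ rfl
    rfl
  unfold tT Mot.cat
  rw [Fin.prod_univ_add]
  congr 1
  · exact Finset.prod_congr rfl fun t _ => h1 _ _ (Fin.append_left _ _ _)
  · exact Finset.prod_congr rfl fun t _ => h1 _ _ (Fin.append_right _ _ _)

/-- the size tends to the order of the pole -/
theorem size_of_pole {B : HeightOneSpectrum (𝓞 K) → ℂ[X]} {j : ℕ} {τ : ℝ} {r : ℤ}
    (h : PoleOrder j τ B r) : Tendsto (size j τ B) (𝓝[>] 0) (𝓝 (r : ℝ)) := by
  obtain ⟨c, hc, hlim⟩ := h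
  have h1 : Tendsto (fun ε : ℝ => Real.log ‖(ε : ℂ) ^ r * LFun B (edgePoint j τ + ε)‖) (𝓝[>] 0)
      (𝓝 (Real.log ‖c‖)) :=
    (Real.continuousAt_log (norm_ne_zero_iff.2 hc)).tendsto.comp hlim.norm
  have h2 : Tendsto (fun ε : ℝ => Real.log (1 / ε)) (𝓝[>] 0) atTop := by
    have h3 : Tendsto (fun ε : ℝ => ε⁻¹) (𝓝[>] 0) atTop := tendsto_inv_nhdsGT_zero
    refine (Real.tendsto_log_atTop.comp h3).congr fun ε => ?_
    simp only [Function.comp_apply, one_div]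
  have h4 := h1.div_atTop h2
  have h5 := h4.add_const (r : ℝ)
  rw [zero_add] at h5
  refine h5.congr' ?_
  have h6 : ∀ᶠ ε : ℝ in 𝓝[>] 0, (ε : ℂ) ^ r * LFun B (edgePoint j τ + ε) ≠ 0 :=
    hlim.eventually_ne hc
  filter_upwards [h6, self_mem_nhdsWithin, h2.eventually_gt_atTop 0] with ε g1 g2 g3
  have hε : (0 : ℝ) < ε := g2
  have g4 : LFun B (edgePoint j τ + ε) ≠ 0 := fun h => g1 (by rw [h, mul_zero])
  have g5 : ‖(ε : ℂ) ^ r‖ = ε ^ r := by
    rw [norm_zpow, Complex.norm_real, Real.norm_eq_abs, abs_of_pos hε]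
  have g6 : Real.log (ε ^ r) = -(r * Real.log (1 / ε)) := by
    rw [Real.log_zpow, one_div, Real.log_inv]
    ring
  unfold size
  rw [norm_mul, g5, Real.log_mul (zpow_ne_zero _ hε.ne') (norm_ne_zero_iff.2 g4), g6]
  field_simp
  ring

variable {σ : HeightOneSpectrum (𝓞 K) → GK K} (hσ : ∀ v, IsFrob v (σ v))

include hσ

theorem tensor_sz {P M : Mot K} {τ : ℝ} {C : HeightOneSpectrum (𝓞 K) → ℂ[X]}
    (h : IsTensor P M τ C) :
    (∀ᶠ ε : ℝ in 𝓝[>] 0, LFun C (edgePoint (weight (P.cat M)) τ + ε) ≠ 0) ∧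
    Tendsto (fun ε : ℝ => (EP (nm K) ε fun v => (loc P σ v * (loc M σ v * zz τ v)).re) / lam ε -
      sizeT P M τ C ε) (𝓝[>] 0) (𝓝 0) := by
  obtain ⟨n, θ, h1, h2, h3⟩ := h
  obtain ⟨h4, h5⟩ := prod_size (P.cat M) hσ θ h1 τ C h3
  refine ⟨h4, h5.congr fun ε => ?_⟩
  have e : (fun v => ((tT (P.cat M) σ v : ℂ) * (θ.character (σ v)⁻¹ * zz τ v)).re) =
      fun v => (loc P σ v * (loc M σ v * zz τ v)).re := by
    funext v
    rw [tT_cat, h2]
    unfold loc
    congr 1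
    push_cast
    ring
  rw [e]
  rfl

theorem pairing_sz {P Q : Mot K} {B : HeightOneSpectrum (𝓞 K) → ℂ[X]} (h : IsPairing P Q B) :
    (∀ᶠ ε : ℝ in 𝓝[>] 0, LFun B (edgePoint (weight (P.cat Q)) 0 + ε) ≠ 0) ∧
    Tendsto (fun ε : ℝ => (EP (nm K) ε fun v => (loc P σ v * conj (loc Q σ v)).re) / lam ε -
      sizeT P Q 0 B ε) (𝓝[>] 0) (𝓝 0) := by
  obtain ⟨n, θ, h1, h2, h3⟩ := h
  obtain ⟨h4, h5⟩ := prod_size (P.cat Q) hσ θ h1 0 B h3
  refine ⟨h4, h5.congr fun ε => ?_⟩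
  have e : (fun v => ((tT (P.cat Q) σ v : ℂ) * (θ.character (σ v)⁻¹ * zz 0 v)).re) =
      fun v => (loc P σ v * conj (loc Q σ v)).re := by
    funext v
    rw [tT_cat, h2, zz_zero]
    unfold loc
    rw [map_mul, Complex.conj_ofReal]
    congr 1
    push_cast
    ring
  rw [e]
  rfl

theorem l_sz {M : Mot K} {τ : ℝ} {C : HeightOneSpectrum (𝓞 K) → ℂ[X]} (h : IsL M τ C) :
    (∀ᶠ ε : ℝ in 𝓝[>] 0, LFun C (edgePoint (weight M.H) τ + ε) ≠ 0) ∧
    Tendsto (fun ε : ℝ => (EP (nm K) ε fun v => (loc M σ v * zz τ v).re) / lam ε -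
      size (weight M.H) τ C ε) (𝓝[>] 0) (𝓝 0) := by
  obtain ⟨h4, h5⟩ := prod_size M.H hσ M.ψ M.artin τ C h
  refine ⟨h4, h5.congr fun ε => ?_⟩
  have e : (fun v => ((tT M.H σ v : ℂ) * (M.ψ.character (σ v)⁻¹ * zz τ v)).re) =
      fun v => (loc M σ v * zz τ v).re := by
    funext v
    unfold loc
    rw [mul_assoc]
  rw [e]

omit hσ in
theorem loc_mot (T : Piece K) (σ : HeightOneSpectrum (𝓞 K) → GK K)
    (v : HeightOneSpectrum (𝓞 K)) : loc T.mot σ v = ((tP T σ v : ℝ) : ℂ) := by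
  unfold loc tT Piece.mot
  have e : (1 : Representation ℂ (GK K) (Fin 1 → ℂ)).character (σ v)⁻¹ = 1 := by
    have h1 : (1 : Representation ℂ (GK K) (Fin 1 → ℂ)).character (σ v)⁻¹ =
      LinearMap.trace ℂ (Fin 1 → ℂ) (1 : Module.End ℂ (Fin 1 → ℂ)) := rfl
    rw [h1, LinearMap.trace_one]
    simp
  change ((∏ t : Fin 1, tP T σ v : ℝ) : ℂ) *
    (1 : Representation ℂ (GK K) (Fin 1 → ℂ)).character (σ v)⁻¹ = _
  rw [e, mul_one, Fin.prod_const, pow_one]

/-- **A nonzero mean value.** -/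
theorem single {T : Piece K} {B₂ : HeightOneSpectrum (𝓞 K) → ℂ[X]}
    (hB₂ : IsPairing T.mot T.mot B₂) {k₁ : ℤ}
    (t1 : Tendsto (fun ε : ℝ => (EP (nm K) ε fun v => (loc T.mot σ v).re) / lam ε) (𝓝[>] 0)
      (𝓝 (-(k₁ : ℝ))))
    (h2 : ∀ η : ℝ, 0 < η → ∀ᶠ ε : ℝ in 𝓝[>] 0, sizeT T.mot T.mot 0 B₂ ε ≤ 1 + η)
    (hk₁ : k₁ ≠ 0) :
    (k₁ = 1 ∨ k₁ = -1) ∧ ∀ (w : HeightOneSpectrum (𝓞 K) → ℂ) (b : ℝ), 0 ≤ b →
      (∀ v, ‖w v‖ ≤ b) → Tendsto (fun ε : ℝ =>
        (EP (nm K) ε fun v => (loc T.mot σ v * w v).re) / lam ε +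
          k₁ * ((EP (nm K) ε fun v => (w v).re) / lam ε)) (𝓝[>] 0) (𝓝 0) := by
  classical
  obtain ⟨n2, s2⟩ := pairing_sz hσ hB₂
  set u : ℝ → ℝ := fun ε => (EP (nm K) ε fun v => (loc T.mot σ v).re) / lam ε with hu
  obtain ⟨e, he, hek⟩ : ∃ e : ℤ, (e = 1 ∨ e = -1) ∧ 1 ≤ e * k₁ := by
    rcases lt_or_gt_of_ne hk₁ with h | h
    · exact ⟨-1, Or.inr rfl, by omega⟩
    · exact ⟨1, Or.inl rfl, by omega⟩
  have hee : (e : ℝ) * e = 1 := by
    rcases he with h | h <;> rw [h] <;> norm_num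
  -- the two functions `T` and `1`
  set g : Bool → HeightOneSpectrum (𝓞 K) → ℂ := fun a v => if a then loc T.mot σ v else 1 with hg
  set c : Bool → ℝ := fun a => if a then 1 else (e : ℝ) with hc
  set S : Bool → Bool → ℝ → ℝ := fun a a' ε => if a then (if a' then sizeT T.mot T.mot 0 B₂ ε else
    u ε) else (if a' then u ε else 1) with hS
  have hSlim : ∀ a a', Tendsto (fun ε : ℝ => (EP (nm K) ε fun v =>
      (g a v * conj (g a' v)).re) / lam ε - S a a' ε) (𝓝[>] 0) (𝓝 0) := by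
    intro a a'
    rcases a with _ | _ <;> rcases a' with _ | _
    · simp only [hg, hS, Bool.false_eq_true, if_false, map_one, mul_one, Complex.one_re]
      have h3 := (EP_one K).sub_const 1
      rw [sub_self] at h3
      exact h3
    · simp only [hg, hS, Bool.false_eq_true, if_false, if_true, one_mul, Complex.conj_re]
      simp only [hu, sub_self]
      exact tendsto_const_nhds
    · simp only [hg, hS, Bool.false_eq_true, if_false, if_true, map_one, mul_one]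
      simp only [hu, sub_self]
      exact tendsto_const_nhds
    · simp only [hg, hS, if_true]
      exact s2
  set Q : ℝ → ℝ := fun ε => ∑ a, ∑ a', c a * c a' * S a a' ε with hQ
  have hQe : ∀ ε, Q ε = sizeT T.mot T.mot 0 B₂ ε + 2 * (e : ℝ) * u ε + 1 := by
    intro ε
    rw [hQ]
    simp only [Fintype.sum_bool, hc, hS, if_true, Bool.false_eq_true, if_false]
    linear_combination hee
  have hgb : ∀ a v, ‖g a v‖ ≤ (T.mot.dim : ℝ) + 1 := by
    intro a v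
    rcases a with _ | _
    · simp only [hg, Bool.false_eq_true, if_false, norm_one]
      have : (0 : ℝ) ≤ (T.mot.dim : ℝ) := Nat.cast_nonneg _
      linarith
    · simp only [hg, if_true]
      exact (norm_loc T.mot σ v).trans (by linarith)
  have hcore : ∀ (w : HeightOneSpectrum (𝓞 K) → ℂ) (b : ℝ), 0 ≤ b → (∀ v, ‖w v‖ ≤ b) →
      ∀ δ η : ℝ, 0 < δ → 0 < η → ∀ᶠ ε : ℝ in 𝓝[>] 0, 0 ≤ Q ε + η ∧
        |∑ a, c a * ((EP (nm K) ε fun v => (g a v * w v).re) / lam ε)| ≤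
          b * ((δ + Q ε / δ) / 2) + η := by
    intro w b hb hw δ η hδ hη
    exact core (K := K) g (fun _ => (T.mot.dim : ℝ) + 1) hgb w hb hw c S hSlim
      (fun a ε => (EP (nm K) ε fun v => (g a v * w v).re) / lam ε)
      (fun a => by simp only [sub_self]; exact tendsto_const_nhds) hδ hη
  have hQpos : ∀ η : ℝ, 0 < η → ∀ᶠ ε : ℝ in 𝓝[>] 0, 0 ≤ Q ε + η := fun η hη =>
    (hcore (fun _ => 0) 0 le_rfl (fun v => by rw [norm_zero]) 1 η zero_lt_one hη).mono
      fun ε hε => hε.1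
  have hek' : (1 : ℝ) ≤ (e : ℝ) * k₁ := by exact_mod_cast hek
  have t1' : Tendsto (fun ε => 2 * (e : ℝ) * u ε) (𝓝[>] 0) (𝓝 (2 * (e : ℝ) * (-(k₁ : ℝ)))) :=
    t1.const_mul _
  have e1 : (e : ℝ) * k₁ ≤ 1 := by
    refine le_of_forall_pos_le_add fun η hη => ?_
    have h3 : ∀ᶠ ε : ℝ in 𝓝[>] 0, (e : ℝ) * k₁ ≤ 1 + η := by
      filter_upwards [hQpos (η / 2) (by positivity), h2 (η / 2) (by positivity),
        (Metric.tendsto_nhds.1 t1') (η / 2) (by positivity)] with ε g1 g2 g3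
      rw [Real.dist_eq] at g3
      have g4 := (abs_lt.1 g3).2
      rw [hQe] at g1
      nlinarith
    obtain ⟨ε, hε⟩ := h3.exists
    exact hε
  have e1r : (e : ℝ) * k₁ = 1 := le_antisymm e1 hek'
  have e1' : e * k₁ = 1 := by exact_mod_cast e1r
  have hke : k₁ = e := by
    rcases he with h | h
    · rw [h] at e1' ⊢
      omega
    · rw [h] at e1' ⊢
      omega
  have hQlim : Tendsto Q (𝓝[>] 0) (𝓝 0) := by
    rw [Metric.tendsto_nhds]
    intro η hη
    filter_upwards [hQpos (η / 3) (by positivity), h2 (η / 3) (by positivity),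
      (Metric.tendsto_nhds.1 t1') (η / 3) (by positivity)] with ε g1 g2 g3
    rw [Real.dist_eq] at g3
    rw [Real.dist_eq, sub_zero, abs_lt]
    have g4 := (abs_lt.1 g3).2
    have g5 : 2 * (e : ℝ) * (-(k₁ : ℝ)) = -2 := by linarith
    rw [g5] at g4
    refine ⟨by linarith, ?_⟩
    rw [hQe]
    linarith
  refine ⟨by rw [hke]; exact he, fun w b hb hw => ?_⟩
  have h5 : Tendsto (fun ε : ℝ => ∑ a, c a * ((EP (nm K) ε fun v => (g a v * w v).re) / lam ε))
      (𝓝[>] 0) (𝓝 0) := by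
    refine Pool.Agent.Y139.SM.rigid_lim (C := b) hb hQlim fun δ η hδ hη => ?_
    refine (hcore w b hb hw δ η hδ hη).mono fun ε hε => ?_
    rw [sub_zero]
    exact hε.2
  refine h5.congr fun ε => ?_
  simp only [Fintype.sum_bool, hc, hg, if_true, Bool.false_eq_true, if_false, one_mul]
  rw [hke]

end

end Pool.Agent.R461.UT
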