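import Pool.Agent.Y139.SM.Gen
import Pool.Agent.R461.UT.Defs
import Pool.Agent.R461.UR.Size

/-! The sizes of the `L`-functions of tensor products of parts of cohomology groups. -/

set_option autoImplicit false

namespace Pool.Agent.R461.UT

open Complex Filter Topology ComplexConjugate NumberField IsDedekindDomain Asymptotics
  Pool.Agent.W401.Cheb Pool.Agent.W540.BE Pool.Agent.W353.L1 Polynomial
open Pool.Agent.H341R2 (lam lam_tendsto)
open Pool.Agent.W353.TD (ch eig eig_card eig_sum eigenvalues)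
open Pool.Agent.W353.PV (tF Eig alp pick pick_spec)
open Pool.Agent.W353.EF (LFun)
open Pool.Agent.W353.EH (edgePoint size)
open Pool.Agent.W353.AT (IsArtin exists_common)
open Pool.Agent.R461.UR (prods_sum' prods_prod' size_of_order')

section
variable {K : Type} [Field K] [NumberField K]

omit [NumberField K] in
theorem edge_eq {m : ℕ} (H : Fin m → Piece K) (τ : ℝ) :
    (((((weight H : ℕ) : ℝ) / 2 : ℝ)) : ℂ) + 1 + (τ : ℂ) * I = edgePoint (weight H) τ := by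
  unfold edgePoint
  push_cast
  ring

open Classical in
/-- the normalised trace of the Frobenius on the part, cut off at the trivial bound -/
noncomputable def tP (T : Piece K) (σ : HeightOneSpectrum (𝓞 K) → GK K)
    (v : HeightOneSpectrum (𝓞 K)) : ℝ :=
  if |tF T.X T.d T.i T.N K v - ch T.ρ (σ v)⁻¹| ≤ (T.s : ℝ) then
    tF T.X T.d T.i T.N K v - ch T.ρ (σ v)⁻¹ else 0

theorem abs_tP (T : Piece K) (σ : HeightOneSpectrum (𝓞 K) → GK K)
    (v : HeightOneSpectrum (𝓞 K)) : |tP T σ v| ≤ (T.s : ℝ) := by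
  unfold tP
  split_ifs with h
  · exact h
  · rw [abs_zero]
    exact Nat.cast_nonneg _

/-- the normalised trace of the Frobenius on the tensor product -/
noncomputable def tT {m : ℕ} (H : Fin m → Piece K) (σ : HeightOneSpectrum (𝓞 K) → GK K)
    (v : HeightOneSpectrum (𝓞 K)) : ℝ := ∏ t, tP (H t) σ v

theorem abs_tT {m : ℕ} (H : Fin m → Piece K) (σ : HeightOneSpectrum (𝓞 K) → GK K)
    (v : HeightOneSpectrum (𝓞 K)) : |tT H σ v| ≤ ((∏ t, (H t).s : ℕ) : ℝ) := by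
  unfold tT
  rw [Finset.abs_prod]
  push_cast
  exact Finset.prod_le_prod (fun t _ => abs_nonneg _) fun t _ => abs_tP _ _ _

theorem nm_posR (v : HeightOneSpectrum (𝓞 K)) : (0 : ℝ) < (nm K v : ℝ) := by
  have := Pool.Agent.W353.L1.nm_pos v
  exact_mod_cast this

/-- the facts about the eigenvalues on a part -/
theorem tr_facts {T : Piece K} {v : HeightOneSpectrum (𝓞 K)} {β : Fin T.s → ℂ}
    (h : IsTrans T v β) {σ : HeightOneSpectrum (𝓞 K) → GK K} (hσ : IsFrob v (σ v)) :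
    (∀ j, ‖β j‖ = (nm K v : ℝ) ^ ((T.i : ℝ) / 2)) ∧
    ∑ j, β j = ((tP T σ v : ℝ) : ℂ) * ((((nm K v : ℝ) ^ ((T.i : ℝ) / 2) : ℝ)) : ℂ) := by
  classical
  obtain ⟨α, hα, hadd⟩ := h
  have hγ := hadd (σ v) hσ
  replace hα : Eig T.X T.d T.i v α := hα
  have h3 : Eig T.X T.d T.i v (alp T.X T.d T.i T.N K v) := pick_spec ⟨α, hα⟩
  have h4 := hα.unique' T.le h3
  have hq0 := nm_posR v
  have hqC : ((nm K v : ℕ) : ℂ) ≠ 0 := by
    have := hq0.ne'
    exact_mod_cast this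
  set Q : ℝ := (nm K v : ℝ) ^ ((T.i : ℝ) / 2) with hQ
  have hQ0 : 0 < Q := Real.rpow_pos_of_pos hq0 _
  have hnorm : ∀ j, ‖β j‖ = Q := by
    intro j
    have h5 : β j ∈ Finset.univ.val.map α := by
      rw [hγ]
      exact Multiset.mem_add.2 (Or.inl (Multiset.mem_map.2 ⟨j, Finset.mem_univ_val j, rfl⟩))
    obtain ⟨j', -, h6⟩ := Multiset.mem_map.1 h5
    rw [← h6, hα.norm j']
    rfl
  have hsum : ∑ j, alp T.X T.d T.i T.N K v j = ∑ j, β j +
      (Q : ℂ) * ((LinearMap.trace ℚ T.V (T.ρ (σ v)⁻¹) : ℚ) : ℂ) := by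
    have h5 := congrArg Multiset.sum (h4.symm.trans hγ)
    rw [Multiset.sum_add] at h5
    have h6 : ((eigenvalues (T.ρ (σ v)⁻¹)).map (fun z => (Q : ℂ) * z)).sum =
        (Q : ℂ) * ((LinearMap.trace ℚ T.V (T.ρ (σ v)⁻¹) : ℚ) : ℂ) := by
      rw [Multiset.sum_map_mul_left, Multiset.map_id']
      congr 1
      exact eig_sum _
    have h7 : (((Ideal.absNorm v.asIdeal : ℝ) ^ ((T.i : ℝ) / 2) : ℝ) : ℂ) = (Q : ℂ) := rfl
    rw [h7, h6] at h5
    exact h5
  have htr : ((tF T.X T.d T.i T.N K v : ℝ) : ℂ) = (∑ j, alp T.X T.d T.i T.N K v j) *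
      ((nm K v : ℕ) : ℂ) ^ (-((((T.i : ℝ) / 2 : ℝ)) : ℂ)) :=
    tr_eq (w := (T.i : ℝ) / 2) (α := alp T.X T.d T.i T.N K) (fun j => h3.norm j) (h3.im T.le)
  have hQc : (Q : ℂ) * ((nm K v : ℕ) : ℂ) ^ (-((((T.i : ℝ) / 2 : ℝ)) : ℂ)) = 1 := by
    rw [hQ, Complex.ofReal_cpow hq0.le]
    have e : (((nm K v : ℝ)) : ℂ) = ((nm K v : ℕ) : ℂ) := by push_cast; rfl
    rw [e, ← Complex.cpow_add _ _ hqC, add_neg_cancel, Complex.cpow_zero]
  have hkey : ∑ j, β j = ((tF T.X T.d T.i T.N K v - ch T.ρ (σ v)⁻¹ : ℝ) : ℂ) * (Q : ℂ) := by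
    have h8 : ((tF T.X T.d T.i T.N K v : ℝ) : ℂ) * (Q : ℂ) =
        ∑ j, alp T.X T.d T.i T.N K v j := by
      rw [htr, mul_assoc, mul_comm (((nm K v : ℕ) : ℂ) ^ _), hQc, mul_one]
    rw [Complex.ofReal_sub, sub_mul, h8, hsum]
    unfold ch
    push_cast
    ring
  have hle : |tF T.X T.d T.i T.N K v - ch T.ρ (σ v)⁻¹| ≤ (T.s : ℝ) := by
    have h9 : ‖∑ j, β j‖ ≤ (T.s : ℝ) * Q := by
      refine (norm_sum_le _ _).trans ?_
      rw [Finset.sum_congr rfl fun j _ => hnorm j, Finset.sum_const, Finset.card_univ,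
        Fintype.card_fin, nsmul_eq_mul]
    rw [hkey, norm_mul, Complex.norm_real, Complex.norm_real, Real.norm_eq_abs, Real.norm_eq_abs,
      abs_of_pos hQ0] at h9
    exact le_of_mul_le_mul_right h9 hQ0
  refine ⟨hnorm, ?_⟩
  unfold tP
  rw [if_pos hle]
  exact hkey

/-- **The sizes of the tensor products.** -/
theorem prod_size {m : ℕ} (H : Fin m → Piece K) {σ : HeightOneSpectrum (𝓞 K) → GK K}
    (hσ : ∀ v, IsFrob v (σ v)) {n : ℕ} (θ : Representation ℂ (GK K) (Fin n → ℂ))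
    (hθ : IsArtin θ) (τ : ℝ) (B : HeightOneSpectrum (𝓞 K) → ℂ[X]) (hB : IsSystem H θ τ B) :
    (∀ᶠ ε : ℝ in 𝓝[>] 0, LFun B (edgePoint (weight H) τ + ε) ≠ 0) ∧
    Tendsto (fun ε : ℝ => (EP (nm K) ε fun v => ((tT H σ v : ℂ) *
      (θ.character (σ v)⁻¹ * zz τ v)).re) / lam ε - size (weight H) τ B ε) (𝓝[>] 0) (𝓝 0) := by
  classical
  obtain ⟨U, hUn, hU, hx1⟩ := exists_common (κ := Unit) (n := fun _ => n)
    (fun _ => θ) fun _ => hθ
  have hx1 : ∀ u ∈ U, θ u = 1 := hx1 ()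
  have hfin : Finite (GK K ⧸ U) := Subgroup.quotient_finite_of_isOpen U hU
  set Q : HeightOneSpectrum (𝓞 K) → (∀ t, Fin (H t).s → ℂ) → Prop := fun v β =>
    (∀ t, IsTrans (H t) v (β t)) ∧
    ∀ σ, IsFrob v σ → ∀ z : ℂ, (B v).eval z =
      ∏ f : (∀ t, Fin (H t).s), LinearMap.det (1 - ((∏ t, β t (f t)) * z) • θ σ⁻¹) with hQ
  set β : HeightOneSpectrum (𝓞 K) → ∀ t, Fin (H t).s → ℂ := fun v =>
    if h : ∃ α, Q v α then h.choose else fun _ _ => 0 with hβ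
  have hb : ∀ᶠ v in cofinite, Q v (β v) := hB.1.mono fun v hv => by
    have h : ∃ α, Q v α := hv
    rw [hβ]
    simp only
    rw [dif_pos h]
    exact h.choose_spec
  have hqC : ∀ v : HeightOneSpectrum (𝓞 K), ((nm K v : ℕ) : ℂ) ≠ 0 := fun v => by
    have := (nm_posR v).ne'
    exact_mod_cast this
  set α : HeightOneSpectrum (𝓞 K) → Fin (∏ t, (H t).s) → ℂ := fun v j =>
    ∏ t, β v t ((finPiFinEquiv (m := m) (n := fun t => (H t).s)).symm j t) with hα
  set w : ℝ := ((weight H : ℕ) : ℝ) / 2 with hw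
  have hwsum : w = ∑ t, ((H t).i : ℝ) / 2 := by
    rw [hw, weight, ← Finset.sum_div]
    push_cast
    rfl
  have hfacts : ∀ᶠ v in cofinite, ∀ t, (∀ j, ‖β v t j‖ = (nm K v : ℝ) ^ (((H t).i : ℝ) / 2)) ∧
      ∑ j, β v t j = ((tP (H t) σ v : ℝ) : ℂ) *
        ((((nm K v : ℝ) ^ (((H t).i : ℝ) / 2) : ℝ)) : ℂ) :=
    hb.mono fun v hv t => tr_facts (hv.1 t) (hσ v)
  have hnorm : ∀ᶠ v in cofinite, ∀ j, ‖α v j‖ = (nm K v : ℝ) ^ w := by
    refine hfacts.mono fun v hv j => ?_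
    rw [hα]
    simp only
    rw [norm_prod, hwsum, Real.rpow_sum_of_pos (nm_posR v)]
    exact Finset.prod_congr rfl fun t _ => (hv t).1 _
  have hsum : ∀ᶠ v in cofinite, ∑ j, α v j = ((tT H σ v : ℝ) : ℂ) *
      ((((nm K v : ℝ) ^ w : ℝ)) : ℂ) := by
    filter_upwards [hfacts] with v hv
    have h2 : ∑ j, α v j = ∏ t, ∑ j, β v t j := prods_sum' (N := fun t => (H t).s) (β v)
    rw [h2, Finset.prod_congr rfl fun t _ => (hv t).2, Finset.prod_mul_distrib, hwsum,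
      Real.rpow_sum_of_pos (nm_posR v)]
    unfold tT
    push_cast
    rfl
  have hreal : ∀ᶠ v in cofinite, (∑ j, α v j).im = 0 := by
    refine hsum.mono fun v hv => ?_
    rw [hv, ← Complex.ofReal_mul, Complex.ofReal_im]
  have hsz := size_corr w α hnorm hreal U θ hx1 τ B
    (hb.mono fun v hv g hg z => by
      rw [hv.2 g hg z]
      exact (prods_prod' (N := fun t => (H t).s) (β v)
        (fun y => LinearMap.det (1 - (y * z) • θ g⁻¹))).symm)
    (by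
      rw [hw, edge_eq]
      exact hB.2) (LFun B) (fun s _ => rfl) σ hσ
  rw [hw] at hsz
  simp only [edge_eq] at hsz
  refine ⟨hsz.1, ?_⟩
  have htr : ∀ᶠ v in cofinite, tr w α v = tT H σ v := by
    filter_upwards [hnorm, hreal, hsum] with v h1 h2 h3
    have h5 := tr_eq (w := w) (α := α) (v := v) h1 h2
    rw [h3] at h5
    have h7 : ((((nm K v : ℝ) ^ w : ℝ)) : ℂ) * ((nm K v : ℕ) : ℂ) ^ (-((w : ℝ) : ℂ)) = 1 := by
      rw [Complex.ofReal_cpow (nm_posR v).le]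
      have e : (((nm K v : ℝ)) : ℂ) = ((nm K v : ℕ) : ℂ) := by push_cast; rfl
      rw [e, ← Complex.cpow_add _ _ (hqC v), add_neg_cancel, Complex.cpow_zero]
    rw [mul_assoc, h7, mul_one] at h5
    exact_mod_cast h5
  have hbd : ∀ (x : HeightOneSpectrum (𝓞 K) → ℝ) (C : ℝ), (∀ v, |x v| ≤ C) → ∀ v,
      |((x v : ℂ) * (θ.character (σ v)⁻¹ * zz τ v)).re| ≤ C * n := by
    intro x C hx v
    refine (Complex.abs_re_le_norm _).trans ?_
    rw [norm_mul, norm_mul, norm_zz, mul_one, Complex.norm_real, Real.norm_eq_abs]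
    exact mul_le_mul (hx v) (norm_char_le U θ hx1 _) (norm_nonneg _)
      ((abs_nonneg _).trans (hx v))
  have hcong := Pool.Agent.Y139.SM.EP_cofinite (K := K)
    (φ := fun v => ((tT H σ v : ℂ) * (θ.character (σ v)⁻¹ * zz τ v)).re)
    (ψ := fun v => ((tr w α v : ℂ) * (θ.character (σ v)⁻¹ * zz τ v)).re)
    (hbd _ _ (abs_tT H σ)) (hbd _ _ (abs_tr_le w α))
    (htr.mono fun v hv => by rw [hv])
  have h8 := hcong.add hsz.2
  rw [add_zero] at h8
  refine h8.congr fun ε => ?_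
  unfold size
  ring

end

end Pool.Agent.R461.UT
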