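import Pool.Agent.R461.UT.Main
import Pool.Agent.W353.TD.Main

/-! Tate's formula for the order of the pole: the defects and the transcendental parts. -/

set_option autoImplicit false

namespace Pool.Agent.R461.UT

open Complex Filter Topology ComplexConjugate NumberField IsDedekindDomain Asymptotics
  Pool.Agent.W401.Cheb Pool.Agent.W540.BE Pool.Agent.W353.L1 Polynomial
open Pool.Agent.H341R2 (lam lam_tendsto)
open Pool.Agent.W353.PV (tF)
open Pool.Agent.W353.EF (LFun)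
open Pool.Agent.W353.EH (edgePoint size)
open Pool.Agent.W353.AT (IsArtin exists_common)
open Pool.Agent.W353.TD (ch IsPart inv cheb_fix tF_sub_le)
open Pool.Agent.W353.NF (fixn act)
open Pool.Agent.R461.UR (core zz_zero char_bound size_of_order')

section
variable {K : Type} [Field K] [NumberField K]

omit [NumberField K] in
theorem fixn_self (g : GK K) : fixn K K g = 1 := by
  unfold fixn
  have h1 : ∀ i j : K →ₐ[K] AlgebraicClosure K, i = j := by
    intro i j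
    refine AlgHom.ext fun x => ?_
    have hx : x = algebraMap K K x := rfl
    rw [hx, AlgHom.commutes, AlgHom.commutes]
  have : Unique {i : K →ₐ[K] AlgebraicClosure K // act K K g i = i} :=
    { default := ⟨Algebra.ofId K _, h1 _ _⟩
      uniq := fun a => Subtype.ext (h1 _ _) }
  exact Nat.card_unique

omit [NumberField K] in
theorem inv_self {V : Type} [AddCommGroup V] [Module ℚ V] (ρ : Representation ℚ (GK K) V) :
    inv ρ (Algebra.ofId K (AlgebraicClosure K)).fieldRange.fixingSubgroup = ρ.invariants := by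
  ext x
  constructor
  · intro h g
    refine h g ?_
    rw [IntermediateField.mem_fixingSubgroup_iff]
    rintro _ ⟨y, rfl⟩
    change g ((algebraMap K (AlgebraicClosure K)) y) = algebraMap K (AlgebraicClosure K) y
    exact g.commutes y
  · intro h g _
    exact h g

theorem mean_ch {V : Type} [AddCommGroup V] [Module ℚ V] [FiniteDimensional ℚ V]
    (ρ : Representation ℚ (GK K) V)
    (hρ : ∃ U : Subgroup (GK K), IsOpen (U : Set (GK K)) ∧ ∀ u ∈ U, ρ u = 1)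
    {σ : HeightOneSpectrum (𝓞 K) → GK K} (hσ : ∀ v, IsFrob v (σ v)) :
    (∃ B : ℝ, ∀ g : GK K, |ch ρ g⁻¹| ≤ B) ∧
    Tendsto (fun ε : ℝ => (EP (nm K) ε fun v => ch ρ (σ v)⁻¹) / lam ε) (𝓝[>] 0)
      (𝓝 ((Module.finrank ℚ ρ.invariants : ℕ) : ℝ)) := by
  obtain ⟨⟨B, hB⟩, h⟩ := cheb_fix ρ K hρ (Algebra.ofId K (AlgebraicClosure K)) σ hσ
  rw [inv_self] at h
  simp only [fixn_self, Nat.cast_one, mul_one] at hB h
  exact ⟨⟨B, hB⟩, h⟩

theorem tP_full (T : Piece K) (σ : HeightOneSpectrum (𝓞 K) → GK K)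
    (v : HeightOneSpectrum (𝓞 K)) : tP T.full σ v = tF T.X T.d T.i T.N K v := by
  have h1 : ch T.full.ρ (σ v)⁻¹ = 0 := by
    unfold ch
    have e : LinearMap.trace ℚ T.full.V (T.full.ρ (σ v)⁻¹) = 0 := by
      change LinearMap.trace ℚ PUnit (1 : Module.End ℚ PUnit) = 0
      rw [LinearMap.trace_one, Module.finrank_zero_of_subsingleton, Nat.cast_zero]
    rw [e, Rat.cast_zero]
  have h2 : T.full.s = T.N := by
    unfold Piece.s Piece.full
    simp only [Module.finrank_zero_of_subsingleton, Nat.sub_zero]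
  have h3 : |tF T.X T.d T.i T.N K v| ≤ (T.N : ℝ) := abs_tr_le _ _ _
  unfold tP
  rw [h1, h2, sub_zero]
  change (if |tF T.X T.d T.i T.N K v| ≤ (T.N : ℝ) then tF T.X T.d T.i T.N K v else 0) = _
  rw [if_pos h3]

theorem good {T : Piece K} {m : ℕ} (him : T.i = 2 * m) (hT : IsPart T.X T.d m T.N T.ρ)
    {σ : HeightOneSpectrum (𝓞 K) → GK K} (hσ : ∀ v, IsFrob v (σ v)) :
    ∀ᶠ v in cofinite, tP T σ v = tF T.X T.d T.i T.N K v - ch T.ρ (σ v)⁻¹ := by
  refine hT.2.mono fun v hv => ?_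
  obtain ⟨α, h1, h2⟩ := hv (σ v) (hσ v)
  have hle : |tF T.X T.d T.i T.N K v - ch T.ρ (σ v)⁻¹| ≤ (T.s : ℝ) := by
    have h3 := tF_sub_le (ρ := T.ρ) (by rw [← him]; exact T.le) (σ := σ v) h1 h2
    rw [him]
    exact h3
  unfold tP
  rw [if_pos hle]

/-- **The mean value on the transcendental part is the defect.** -/
theorem mean_part {T : Piece K} {m : ℕ} {r : ℤ} (h : Tame T m r)
    {σ : HeightOneSpectrum (𝓞 K) → GK K} (hσ : ∀ v, IsFrob v (σ v)) :
    Tendsto (fun ε : ℝ => (EP (nm K) ε fun v => (loc T.mot σ v).re) / lam ε) (𝓝[>] 0)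
      (𝓝 (-((((T.rk : ℤ) - r : ℤ)) : ℝ))) := by
  classical
  obtain ⟨him, hT, B₁, B₂, h1, h2, -, -⟩ := h
  obtain ⟨n1, s1⟩ := l_sz hσ h1
  have t1 := size_of_pole h2
  obtain ⟨⟨Bc, hBc⟩, hch⟩ := mean_ch T.ρ hT.1 hσ
  have e1 : (fun v => (loc T.full.mot σ v * zz 0 v).re) = fun v => tF T.X T.d T.i T.N K v := by
    funext v
    rw [zz_zero, mul_one, loc_mot, tP_full, Complex.ofReal_re]
  have e2 : (fun v => (loc T.mot σ v).re) = fun v => tP T σ v := by
    funext v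
    rw [loc_mot, Complex.ofReal_re]
  rw [e2]
  simp only [e1] at s1
  have hF : ∀ v : HeightOneSpectrum (𝓞 K), |tF T.X T.d T.i T.N K v| ≤ (T.N : ℝ) :=
    fun v => abs_tr_le _ _ _
  have hch' : ∀ v, |(-1) * ch T.ρ (σ v)⁻¹| ≤ Bc := fun v => by
    rw [abs_mul, abs_neg, abs_one, one_mul]
    exact hBc (σ v)
  have hcong := Pool.Agent.Y139.SM.EP_cofinite (K := K) (φ := fun v => tP T σ v)
    (ψ := fun v => tF T.X T.d T.i T.N K v + (-1) * ch T.ρ (σ v)⁻¹) (abs_tP T σ)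
    (C := (T.N : ℝ) + Bc)
    (fun v => (abs_add_le _ _).trans (add_le_add (hF v) (hch' v)))
    ((good him hT hσ).mono fun v hv => by rw [hv]; ring)
  have h3 := ((hcong.add s1).add t1).sub hch
  have e3 : (0 : ℝ) + 0 + (r : ℝ) - ((Module.finrank ℚ T.ρ.invariants : ℕ) : ℝ) =
      -((((T.rk : ℤ) - r : ℤ)) : ℝ) := by
    unfold Piece.rk
    push_cast
    ring
  rw [e3] at h3
  refine h3.congr' ?_
  filter_upwards [self_mem_nhdsWithin] with ε hε
  have hε : (0 : ℝ) < ε := hε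
  have e4 : (EP (nm K) ε fun v => tF T.X T.d T.i T.N K v + (-1) * ch T.ρ (σ v)⁻¹) =
      (EP (nm K) ε fun v => tF T.X T.d T.i T.N K v) - EP (nm K) ε fun v => ch T.ρ (σ v)⁻¹ := by
    rw [EP_add normSys hε hF hch', EP_const_mul]
    ring
  rw [e4]
  ring

theorem tame_facts {σ : HeightOneSpectrum (𝓞 K) → GK K} (hσ : ∀ v, IsFrob v (σ v))
    {T : Piece K} {m : ℕ} {r : ℤ} (h : Tame T m r) (hr : r - T.rk ≠ 0) :
    (r - T.rk = 1 ∨ r - T.rk = -1) ∧ ∀ (w : HeightOneSpectrum (𝓞 K) → ℂ) (b : ℝ), 0 ≤ b →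
      (∀ v, ‖w v‖ ≤ b) → Tendsto (fun ε : ℝ =>
        (EP (nm K) ε fun v => (loc T.mot σ v * w v).re) / lam ε -
          ((r - T.rk : ℤ) : ℝ) * ((EP (nm K) ε fun v => (w v).re) / lam ε)) (𝓝[>] 0) (𝓝 0) := by
  have h0 := mean_part h hσ
  obtain ⟨him, hT, B₁, B₂, h1, h2, h3, h4⟩ := h
  obtain ⟨g1, g3⟩ := single hσ h3 h0 h4 (by omega)
  refine ⟨by omega, fun w b hb hw => ?_⟩
  refine (g3 w b hb hw).congr fun ε => ?_
  push_cast
  ring

theorem loc_tw (M : Mot K) (σ : HeightOneSpectrum (𝓞 K) → GK K) (τ : ℝ)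
    (v : HeightOneSpectrum (𝓞 K)) : ‖loc M σ v * zz τ v‖ ≤ (M.dim : ℝ) := by
  rw [norm_mul, norm_zz, mul_one]
  exact norm_loc M σ v

/-- **The defect is `0`, `1` or `-1`; twists.** -/
theorem tate_twists {T : Piece K} {m : ℕ} {r : ℤ} (h : Tame T m r) (hr : r - T.rk ≠ 0) :
    (r - T.rk = 1 ∨ r - T.rk = -1) ∧
    ∀ (M : Mot K) (τ : ℝ) (C C' : HeightOneSpectrum (𝓞 K) → ℂ[X]),
      IsTensor T.mot M τ C → IsL M τ C' →
      Tendsto (fun ε : ℝ => sizeT T.mot M τ C ε - ((r - T.rk : ℤ) : ℝ) *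
        size (weight M.H) τ C' ε) (𝓝[>] 0) (𝓝 0) ∧
      ∀ k k' : ℤ, PoleT T.mot M τ C k → PoleOrder (weight M.H) τ C' k' →
        k = (r - T.rk) * k' := by
  choose σ hσ using exists_isFrob (F := K)
  obtain ⟨hk, g⟩ := tame_facts hσ h hr
  refine ⟨hk, fun M τ C C' hC hC' => ?_⟩
  set k : ℤ := r - T.rk with hkdef
  obtain ⟨n1, s1⟩ := tensor_sz hσ hC
  obtain ⟨n2, s2⟩ := l_sz hσ hC'
  have h1 := g (fun v => loc M σ v * zz τ v) (M.dim : ℝ) (Nat.cast_nonneg _)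
    (loc_tw M σ τ)
  have h2 : Tendsto (fun ε : ℝ => sizeT T.mot M τ C ε - (k : ℝ) * size (weight M.H) τ C' ε)
      (𝓝[>] 0) (𝓝 0) := by
    have h3 := (h1.sub s1).add (s2.const_mul (k : ℝ))
    rw [mul_zero, sub_zero, add_zero] at h3
    refine h3.congr fun ε => ?_
    ring
  refine ⟨h2, fun m m' hm hm' => ?_⟩
  have t1 := size_of_pole hm
  have t2 := size_of_pole hm'
  have h4 := tendsto_nhds_unique (t1.sub (t2.const_mul (k : ℝ))) h2
  have h5 : (m : ℝ) = k * m' := by linarith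
  exact_mod_cast h5

/-- **Two transcendental parts with nonzero defects.** -/
theorem tate_pairs {T T' : Piece K} {m m' : ℕ} {r r' : ℤ} (h : Tame T m r) (h' : Tame T' m' r')
    (hr : r - T.rk ≠ 0) (hr' : r' - T'.rk ≠ 0) :
    (∀ D : HeightOneSpectrum (𝓞 K) → ℂ[X], IsTensor T.mot T'.mot 0 D →
      Tendsto (sizeT T.mot T'.mot 0 D) (𝓝[>] 0)
        (𝓝 (((r - T.rk : ℤ) : ℝ) * ((r' - T'.rk : ℤ) : ℝ))) ∧
      ∀ k : ℤ, PoleT T.mot T'.mot 0 D k → k = (r - T.rk) * (r' - T'.rk)) ∧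
    ∀ (M : Mot K) (τ : ℝ) (C C' : HeightOneSpectrum (𝓞 K) → ℂ[X]),
      IsTensor T.mot M τ C → IsTensor T'.mot M τ C' →
      Tendsto (fun ε : ℝ => sizeT T.mot M τ C ε -
        ((r - T.rk : ℤ) : ℝ) * ((r' - T'.rk : ℤ) : ℝ) * sizeT T'.mot M τ C' ε) (𝓝[>] 0)
        (𝓝 0) := by
  choose σ hσ using exists_isFrob (F := K)
  obtain ⟨hk, g⟩ := tame_facts hσ h hr
  obtain ⟨hk', g'⟩ := tame_facts hσ h' hr'
  set k : ℤ := r - T.rk with hkdef
  set k' : ℤ := r' - T'.rk with hkdef'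
  have hkk : (k' : ℝ) * k' = 1 := by
    rcases hk' with h | h <;> rw [h] <;> norm_num
  refine ⟨fun D hD => ?_, fun M τ C C' hC hC' => ?_⟩
  · obtain ⟨n1, s1⟩ := tensor_sz hσ hD
    have h1 := g (fun v => loc T'.mot σ v * zz 0 v) (T'.mot.dim : ℝ) (Nat.cast_nonneg _)
      (loc_tw T'.mot σ 0)
    have h2 := g' (fun _ => 1) 1 zero_le_one (fun v => by rw [norm_one])
    simp only [zz_zero, mul_one, Complex.one_re] at h1 h2 s1
    have h3 : Tendsto (sizeT T.mot T'.mot 0 D) (𝓝[>] 0) (𝓝 ((k : ℝ) * k')) := by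
      have h4 := ((h1.sub s1).add (h2.const_mul (k : ℝ))).add
        (((EP_one K).const_mul ((k : ℝ) * k')))
      simp only [sub_zero, mul_zero, zero_add, add_zero, mul_one] at h4
      refine h4.congr fun ε => ?_
      ring
    refine ⟨h3, fun m hm => ?_⟩
    have h5 := tendsto_nhds_unique (size_of_pole hm) h3
    exact_mod_cast h5
  · obtain ⟨n1, s1⟩ := tensor_sz hσ hC
    obtain ⟨n2, s2⟩ := tensor_sz hσ hC'
    have h1 := g (fun v => loc M σ v * zz τ v) (M.dim : ℝ) (Nat.cast_nonneg _) (loc_tw M σ τ)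
    have h2 := g' (fun v => loc M σ v * zz τ v) (M.dim : ℝ) (Nat.cast_nonneg _) (loc_tw M σ τ)
    have h3 := (h1.sub s1).sub ((h2.sub s2).const_mul ((k : ℝ) * k'))
    simp only [sub_zero, mul_zero] at h3
    refine h3.congr fun ε => ?_
    have e : (k : ℝ) * k' * (k' * ((EP (nm K) ε fun v => (loc M σ v * zz τ v).re) / lam ε)) =
        k * ((EP (nm K) ε fun v => (loc M σ v * zz τ v).re) / lam ε) := by
      rw [← mul_assoc, mul_assoc (k : ℝ), hkk, mul_one]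
    linear_combination e

/-- **The square decides.** -/
theorem tate_square {T : Piece K} {m : ℕ} {r : ℤ} (h : Tame T m r) {n : ℕ}
    (ψ : Representation ℂ (GK K) (Fin n → ℂ)) (hψ : IsArtin ψ)
    (hc : ∀ g, ψ.character g = ((LinearMap.trace ℚ T.V (T.ρ g) : ℚ) : ℂ))
    {C : HeightOneSpectrum (𝓞 K) → ℂ[X]} (hC : IsTensor T.mot (artinMot ψ hψ) 0 C) {k : ℤ}
    (hk : PoleT T.mot (artinMot ψ hψ) 0 C k) : r = T.rk ∨ k = (r - T.rk) * T.rk := by
  classical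
  by_cases hr : r - T.rk = 0
  · left
    omega
  right
  choose σ hσ using exists_isFrob (F := K)
  obtain ⟨-, g⟩ := tame_facts hσ h hr
  obtain ⟨him, hT, -⟩ := h
  obtain ⟨-, hch⟩ := mean_ch T.ρ hT.1 hσ
  obtain ⟨n1, s1⟩ := tensor_sz hσ hC
  have t1 := size_of_pole hk
  have hl : ∀ v, loc (artinMot ψ hψ) σ v = ((ch T.ρ (σ v)⁻¹ : ℝ) : ℂ) := by
    intro v
    have e1 : loc (artinMot ψ hψ) σ v = (1 : ℂ) * ψ.character (σ v)⁻¹ := by
      unfold loc tT artinMot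
      change ((∏ t : Fin 0, _ : ℝ) : ℂ) * ψ.character (σ v)⁻¹ = _
      rw [Finset.univ_eq_empty, Finset.prod_empty, Complex.ofReal_one]
    rw [e1, one_mul, hc]
    unfold ch
    push_cast
    rfl
  have h1 := g (fun v => loc (artinMot ψ hψ) σ v * zz 0 v) ((artinMot ψ hψ).dim : ℝ)
    (Nat.cast_nonneg _) (loc_tw _ σ 0)
  have e2 : (fun v => (loc (artinMot ψ hψ) σ v * zz 0 v).re) = fun v => ch T.ρ (σ v)⁻¹ := by
    funext v
    rw [zz_zero, mul_one, hl, Complex.ofReal_re]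
  rw [e2] at h1
  have h2 := ((s1.sub h1).add t1).sub (hch.const_mul ((r - T.rk : ℤ) : ℝ))
  have h3 : Tendsto (fun _ : ℝ => (0 : ℝ)) (𝓝[>] 0) (𝓝 0) := tendsto_const_nhds
  have h4 : Tendsto (fun _ : ℝ => (0 : ℝ)) (𝓝[>] 0) (𝓝 ((0 : ℝ) - 0 + (k : ℝ) -
      ((r - T.rk : ℤ) : ℝ) * ((Module.finrank ℚ T.ρ.invariants : ℕ) : ℝ))) := by
    refine h2.congr fun ε => ?_
    unfold sizeT
    ring
  have h5 := tendsto_nhds_unique h4 h3
  have h6 : (k : ℝ) = ((r - T.rk : ℤ) : ℝ) * (T.rk : ℝ) := by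
    unfold Piece.rk at h5 ⊢
    linarith
  exact_mod_cast h6

end

end Pool.Agent.R461.UT
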